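import Pool.Agent.V11208.FT.Value

/-!
# MP_ca6624_gt: a finite type invariant which vanishes on algebraically split links but does not
lie in the ideal generated by the linking numbers

Links with numbered components are labelled braid words modulo braid relations, conjugation and
stabilization. The invariant is the coefficient of `x ^ 5` of the Conway function (computed from
the Burau matrix at `t = (1 + x) ^ 2`) of a link with four components.
-/

namespace Pool.Agent.Results.MP_ca6624_gt.NotInLinkingIdeal

open Pool.Agent.V11208.FT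

theorem cross_symm {m n : ℕ} (i j : Fin m) (w : Word n) (ell : Fin (n + 1) → Fin m) :
    cross i j w ell = cross j i w ell := by
  induction w generalizing ell with
  | nil => rfl
  | cons l w ih =>
    rw [cross_cons, cross_cons, ih]
    congr 1
    simp only [cl]
    exact if_congr or_comm rfl rfl

theorem vanish (L : Link 4) (h : ∀ i j : Fin 4, i < j → lk i j L = 0) : vinv 4 L = 0 := by
  obtain ⟨⟨n, w, ell, hcl⟩, rfl⟩ := Quot.exists_rep L
  have h0 : ∀ i j : Fin 4, i < j → cross i j w ell = 0 := by
    intro i j hij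
    have h1 := h i j hij
    have h2 : lk i j (Quot.mk _ ⟨n, w, ell, hcl⟩) = (cross i j w ell : ℂ) / 2 := by
      show (if i = j then (0 : ℂ) else (cross i j w ell : ℂ) / 2) = _
      rw [if_neg hij.ne]
    rw [h2] at h1
    have h3 : (cross i j w ell : ℂ) = 0 := by
      linear_combination 2 * h1
    exact_mod_cast h3
  have h1 : ∀ i j : Fin 4, i ≠ j → cross i j w ell = 0 := by
    intro i j hij
    rcases lt_or_gt_of_ne hij with h | h
    · exact h0 i j h
    · rw [cross_symm]; exact h0 j i h
  have h2 := split_dvd w ell hcl h1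
  exact PowerSeries.X_pow_dvd_iff.mp h2 5 (by norm_num)

theorem lk_phl (i j : Fin 4) (hij : i < j) (u : GM) (h : Closes (phl u) (id : Fin 4 → Fin 4)) :
    lk i j (Quot.mk _ ⟨3, phl u, id, h⟩) = cnt i j u := by
  show (if i = j then (0 : ℂ) else (cross i j (phl u) id : ℂ) / 2) = _
  rw [if_neg hij.ne]
  rfl

theorem not_mem (w : Fin 4 → Fin 4 → Link 4 → ℂ) (hw : ∀ i j, FiniteType (w i j))
    (hv : ∀ L, vinv 4 L = ∑ i, ∑ j, if i < j then lk i j L * w i j L else 0) : False := by
  choose N hN using hw
  set M : ℕ := ∑ i, ∑ j, N i j with hM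
  have hNM : ∀ i j, N i j < M + 1 := by
    intro i j
    have h1 : N i j ≤ ∑ j, N i j := Finset.single_le_sum (fun _ _ => Nat.zero_le _) (Finset.mem_univ j)
    have h2 : ∑ j, N i j ≤ ∑ i, ∑ j, N i j :=
      Finset.single_le_sum (f := fun i => ∑ j, N i j) (fun _ _ => Nat.zero_le _) (Finset.mem_univ i)
    omega
  set P : MonoidAlgebra ℂ GM := theElt (lg (M + 1) (Ag 0 - 1)) (lg (M + 1) (Ag 1 - 1))
    (lg (M + 1) (Ag 2 - 1)) (lg (M + 1) (Ag 3 - 1)) (lg (M + 1) (Ag 4 - 1)) with hP
  -- the two sides as functions of words in the generators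
  have hfun : (fun u : GM => PowerSeries.coeff (R := ℂ) 5 (conw (phl u))) =
      fun u => ∑ i : Fin 4, ∑ j : Fin 4, if i < j then
        cnt i j u * ev (w i j) (id : Fin 4 → Fin 4) (phl u) else 0 := by
    funext u
    have h := hv (Quot.mk _ ⟨3, phl u, id, closes_phl u⟩)
    have h1 : vinv 4 (Quot.mk _ ⟨3, phl u, id, closes_phl u⟩) =
      PowerSeries.coeff (R := ℂ) 5 (conw (phl u)) := rfl
    rw [← h1, h]
    apply Finset.sum_congr rfl
    intro i _
    apply Finset.sum_congr rfl
    intro j _
    by_cases hij : i < j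
    · rw [if_pos hij, if_pos hij, lk_phl i j hij, ev, dif_pos (closes_phl u)]
    · rw [if_neg hij, if_neg hij]
  have hL : lin (fun u : GM => PowerSeries.coeff (R := ℂ) 5 (conw (phl u))) P = -64 := by
    rw [lin_phl (fun w => PowerSeries.coeff (R := ℂ) 5 (conw w)) P]
    have h1 : fun_ (fun w : Word 3 => PowerSeries.coeff (R := ℂ) 5 (conw w)) (Ps P) =
        PowerSeries.coeff (R := ℂ) 5 (fun_ conw (Ps P)) :=
      lin_comp (PowerSeries.coeff (R := ℂ) 5) (fun u : WM 3 => conw (FreeMonoid.toList u)) (Ps P)
    rw [h1]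
    have h2 : Ps P = theElt (Lw (M + 1) 0) (Lw (M + 1) 1) (Lw (M + 1) 2) (Lw (M + 1) 3)
        (Lw (M + 1) 4) := by
      have h3 : ∀ g, Ps (lg (M + 1) (Ag g - 1)) = Lw (M + 1) g := by
        intro g
        rw [Ps_lg, map_sub, map_one, Ps_Ag, Lw]
      rw [hP]
      simp only [theElt, br, map_sub, map_add, map_mul, h3]
    rw [h2, value_elt]
  have hR : lin (fun u : GM => ∑ i : Fin 4, ∑ j : Fin 4, if i < j then
        cnt i j u * ev (w i j) (id : Fin 4 → Fin 4) (phl u) else 0) P = 0 := by
    have h1 : ∀ Q : MonoidAlgebra ℂ GM, lin (fun u : GM => ∑ i : Fin 4, ∑ j : Fin 4, if i < j then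
        cnt i j u * ev (w i j) (id : Fin 4 → Fin 4) (phl u) else 0) Q =
        ∑ i : Fin 4, ∑ j : Fin 4, if i < j then
          lin (fun u : GM => cnt i j u * ev (w i j) (id : Fin 4 → Fin 4) (phl u)) Q else 0 := by
      intro Q
      induction Q using MonoidAlgebra.induction_on with
      | of u => simp only [lin_of]
      | add x y hx hy =>
        rw [map_add, hx, hy, ← Finset.sum_add_distrib]
        apply Finset.sum_congr rfl
        intro i _
        rw [← Finset.sum_add_distrib]
        apply Finset.sum_congr rfl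
        intro j _
        split_ifs
        · rw [map_add]
        · rw [add_zero]
      | smul r x hx =>
        rw [map_smul, hx, smul_eq_mul, Finset.mul_sum]
        apply Finset.sum_congr rfl
        intro i _
        rw [Finset.mul_sum]
        apply Finset.sum_congr rfl
        intro j _
        split_ifs
        · rw [map_smul, smul_eq_mul]
        · rw [mul_zero]
    rw [h1]
    apply Finset.sum_eq_zero
    intro i _
    apply Finset.sum_eq_zero
    intro j _
    by_cases hij : i < j
    · rw [if_pos hij]
      have h2 := lin_dcnt (fun u : GM => ev (w i j) (id : Fin 4 → Fin 4) (phl u)) (cnt i j) P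
      rw [h2]
      exact kill (w i j) (N i j) (M + 1) (hN i j) (hNM i j) i j hij
    · rw [if_neg hij]
  rw [hfun, hR] at hL
  norm_num at hL

/-- There is a finite type invariant `v` of links with four numbered components which vanishes
on all algebraically split links, but which is not of the form `∑_{i<j} lk_ij w_ij` with
finite type invariants `w_ij`. -/
theorem result : ∃ v : Link 4 → ℂ, FiniteType v ∧
    (∀ L : Link 4, (∀ i j : Fin 4, i < j → lk i j L = 0) → v L = 0) ∧
    ¬ ∃ w : Fin 4 → Fin 4 → Link 4 → ℂ, (∀ i j, FiniteType (w i j)) ∧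
      ∀ L : Link 4, v L = ∑ i, ∑ j, if i < j then lk i j L * w i j L else 0 :=
  ⟨vinv 4, ⟨5, finiteType_vinv 4⟩, vanish, fun ⟨w, hw, hv⟩ => not_mem w hw hv⟩

end Pool.Agent.Results.MP_ca6624_gt.NotInLinkingIdeal
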